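import Pool.Agent.H95.ILV.Targets

/-!
# MP_de9001_an: row FLO (lower bound of the Fejer weight near zero)
-/

set_option autoImplicit false

open MeasureTheory AddCircle Filter Topology Pool.Agent.H87.Synth Pool.Agent.H23.Synth
  Pool.Agent.H95.ILV

namespace Pool.Agent.H11.ILV

theorem sum_range_le (n : ℕ) : ∑ a ∈ Finset.range n, (a : ℝ) ≤ (n : ℝ) ^ 2 / 2 := by
  induction n with
  | zero => simp
  | succ n ih =>
    rw [Finset.sum_range_succ]
    push_cast
    nlinarith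

theorem pf_FLO : T_FLO := by
  intro n x hn hx
  have hn' : (1 : ℝ) ≤ n := by exact_mod_cast hn
  have h0 : 0 < (n : ℝ) := by linarith
  have h1 : (n : ℝ) / 2 ≤ ‖∑ a ∈ Finset.range n, (fourier (a : ℤ) x : ℂ)‖ := by
    have h2 : ‖∑ a ∈ Finset.range n, ((fourier (a : ℤ) x : ℂ) - 1)‖ ≤ (n : ℝ) / 2 := by
      refine (norm_sum_le _ _).trans ?_
      have h3 : ∀ a ∈ Finset.range n, ‖(fourier (a : ℤ) x : ℂ) - 1‖ ≤ (a : ℝ) * rho x := by
        intro a _
        have h := norm_fourier_sub_one_le (a : ℤ) x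
        simpa using h
      refine (Finset.sum_le_sum h3).trans ?_
      rw [← Finset.sum_mul]
      have h4 := sum_range_le n
      have h5 := rho_nonneg x
      calc (∑ a ∈ Finset.range n, (a : ℝ)) * rho x ≤ (n : ℝ) ^ 2 / 2 * rho x :=
            mul_le_mul_of_nonneg_right h4 h5
        _ = (n : ℝ) / 2 * (n * rho x) := by ring
        _ ≤ (n : ℝ) / 2 * 1 := mul_le_mul_of_nonneg_left hx (by positivity)
        _ = (n : ℝ) / 2 := mul_one _
    have h3 : ∑ a ∈ Finset.range n, (fourier (a : ℤ) x : ℂ) =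
        (n : ℂ) + ∑ a ∈ Finset.range n, ((fourier (a : ℤ) x : ℂ) - 1) := by
      rw [Finset.sum_sub_distrib]
      simp
    rw [h3]
    have h4 := norm_sub_norm_le (n : ℂ) (-∑ a ∈ Finset.range n, ((fourier (a : ℤ) x : ℂ) - 1))
    rw [norm_neg, sub_neg_eq_add, Complex.norm_natCast] at h4
    linarith
  unfold FW
  have h2 : ((n : ℝ) / 2) ^ 2 ≤ ‖∑ a ∈ Finset.range n, (fourier (a : ℤ) x : ℂ)‖ ^ 2 :=
    pow_le_pow_left₀ (by positivity) h1 2
  calc (n : ℝ) / 4 = 1 / (n : ℝ) * ((n : ℝ) / 2) ^ 2 := by field_simp; norm_num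
    _ ≤ _ := mul_le_mul_of_nonneg_left h2 (by positivity)

end Pool.Agent.H11.ILV
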