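import Pool.Agent.H95.ILV.Targets

/-!
# MP_de9001_an: row L4 (fourth moments with the Fejer weight)
-/

set_option autoImplicit false

open MeasureTheory AddCircle Filter Topology Pool.Agent.H87.Synth Pool.Agent.H23.Synth
  Pool.Agent.H95.ILV

namespace Pool.Agent.H11.ILV

theorem cont_int {f : Circ → ℂ} (hf : Continuous f) :
    Integrable f (haarAddCircle : Measure Circ) := by
  have h := hf.continuousOn.integrableOn_compact (μ := (haarAddCircle : Measure Circ))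
    (isCompact_univ (X := Circ))
  rwa [integrableOn_univ] at h

theorem cont_FW (n : ℕ) : Continuous (FW n) := by
  unfold FW
  fun_prop

theorem l2_gen (h : T_FWI) {κ : Type} (t : Finset κ) (μ : κ → ℤ) (g : κ → ℂ) (n : ℕ)
    (hn : 1 ≤ n) :
    ∫ x, FW n x * ‖ES t μ g x‖ ^ 2 ∂(haarAddCircle : Measure Circ) ≤
      ∑ p ∈ t, ∑ q ∈ t, if |μ p - μ q| < (n : ℤ) then ‖g p‖ * ‖g q‖ else 0 := by
  have hn' : (1 : ℝ) ≤ n := by exact_mod_cast hn
  have h1 : ((∫ x, FW n x * ‖ES t μ g x‖ ^ 2 ∂(haarAddCircle : Measure Circ) : ℝ) : ℂ) =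
      ∑ p ∈ t, ∑ q ∈ t, (g p * starRingEnd ℂ (g q)) *
        ((max 0 (1 - |((μ p - μ q : ℤ) : ℝ)| / n) : ℝ) : ℂ) := by
    rw [← integral_complex_ofReal]
    have h2 : ∀ x : Circ, ((FW n x * ‖ES t μ g x‖ ^ 2 : ℝ) : ℂ) =
        ∑ p ∈ t, ∑ q ∈ t, (g p * starRingEnd ℂ (g q)) *
          (((FW n x : ℝ) : ℂ) * (fourier (μ p - μ q) x : ℂ)) := by
      intro x
      push_cast
      rw [← Complex.mul_conj']
      unfold ES
      rw [map_sum, Finset.sum_mul_sum, Finset.mul_sum]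
      refine Finset.sum_congr rfl fun p _ => ?_
      rw [Finset.mul_sum]
      refine Finset.sum_congr rfl fun q _ => ?_
      rw [map_mul, ← fourier_neg, sub_eq_add_neg, fourier_add]
      ring
    simp only [h2]
    have hc : ∀ p q : κ, Continuous fun x : Circ => (g p * starRingEnd ℂ (g q)) *
        (((FW n x : ℝ) : ℂ) * (fourier (μ p - μ q) x : ℂ)) := by
      intro p q
      have := cont_FW n
      fun_prop
    rw [integral_finsetSum _ fun p _ => integrable_finsetSum _ fun q _ => cont_int (hc p q)]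
    refine Finset.sum_congr rfl fun p _ => ?_
    rw [integral_finsetSum _ fun q _ => cont_int (hc p q)]
    refine Finset.sum_congr rfl fun q _ => ?_
    rw [integral_const_mul, h n _ hn]
  have h3 := Complex.norm_real (∫ x, FW n x * ‖ES t μ g x‖ ^ 2 ∂(haarAddCircle : Measure Circ))
  rw [h1] at h3
  refine (le_abs_self _).trans ?_
  rw [← Real.norm_eq_abs, ← h3]
  refine (norm_sum_le _ _).trans (Finset.sum_le_sum fun p _ => ?_)
  refine (norm_sum_le _ _).trans (Finset.sum_le_sum fun q _ => ?_)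
  rw [norm_mul, norm_mul, RCLike.norm_conj, Complex.norm_real, Real.norm_eq_abs,
    abs_of_nonneg (le_max_left _ _)]
  split_ifs with hlt
  · have h4 : max 0 (1 - |((μ p - μ q : ℤ) : ℝ)| / n) ≤ 1 := by
      apply max_le zero_le_one
      have : 0 ≤ |((μ p - μ q : ℤ) : ℝ)| / n := by positivity
      linarith
    calc _ ≤ ‖g p‖ * ‖g q‖ * 1 := mul_le_mul_of_nonneg_left h4 (by positivity)
      _ = _ := mul_one _
  · have h4 : max 0 (1 - |((μ p - μ q : ℤ) : ℝ)| / n) = 0 := by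
      apply max_eq_left
      have h5 : (n : ℝ) ≤ |((μ p - μ q : ℤ) : ℝ)| := by
        rw [not_lt] at hlt
        exact_mod_cast hlt
      have h6 : 1 ≤ |((μ p - μ q : ℤ) : ℝ)| / n := by
        rw [le_div_iff₀ (by linarith)]
        linarith
      linarith
    rw [h4, mul_zero]

theorem quad_sum {ι : Type} (s : Finset ι) (ν : ι → ℤ) (G : ι → ℝ) (τ : ι → ι) (n : ℕ)
    (hG : ∀ a, 0 ≤ G a) (hQ : Quad s ν τ n) :
    ∑ p ∈ s ×ˢ s, ∑ q ∈ s ×ˢ s,
      (if |(ν p.1 + ν p.2) - (ν q.1 + ν q.2)| < (n : ℤ) then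
        (G p.1 * G p.2) * (G q.1 * G q.2) else 0) ≤ 3 * (∑ a ∈ s, G a ^ 2) ^ 2 := by
  classical
  have h1 : ∀ p ∈ s ×ˢ s, ∀ q ∈ s ×ˢ s,
      (if |(ν p.1 + ν p.2) - (ν q.1 + ν q.2)| < (n : ℤ) then
        (G p.1 * G p.2) * (G q.1 * G q.2) else 0) ≤
      (if q = p then (G p.1 * G p.2) * (G q.1 * G q.2) else 0) +
      (if q = p.swap then (G p.1 * G p.2) * (G q.1 * G q.2) else 0) +
      (if p.2 = τ p.1 then G p.1 * G p.2 else 0) * (if q.2 = τ q.1 then G q.1 * G q.2 else 0) := by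
    intro p hp q hq
    rw [Finset.mem_product] at hp hq
    have hpp : 0 ≤ G p.1 * G p.2 := mul_nonneg (hG _) (hG _)
    have hqq : 0 ≤ G q.1 * G q.2 := mul_nonneg (hG _) (hG _)
    have hpq := mul_nonneg hpp hqq
    have e1 : 0 ≤ (if q = p then (G p.1 * G p.2) * (G q.1 * G q.2) else 0) := by
      split_ifs <;> linarith
    have e2 : 0 ≤ (if q = p.swap then (G p.1 * G p.2) * (G q.1 * G q.2) else 0) := by
      split_ifs <;> linarith
    have e3 : 0 ≤ (if p.2 = τ p.1 then G p.1 * G p.2 else 0) *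
        (if q.2 = τ q.1 then G q.1 * G q.2 else 0) := by
      refine mul_nonneg ?_ ?_ <;> split_ifs <;> linarith
    by_cases hlt : |(ν p.1 + ν p.2) - (ν q.1 + ν q.2)| < (n : ℤ)
    · rw [if_pos hlt]
      have h2 : |ν p.1 + ν p.2 - ν q.1 - ν q.2| < (n : ℤ) := by
        rw [← sub_sub] at hlt
        exact hlt
      rcases hQ.2 p.1 hp.1 p.2 hp.2 q.1 hq.1 q.2 hq.2 h2 with h3 | h3 | h3
      · have h4 : q = p := Prod.ext h3.1.symm h3.2.symm
        rw [if_pos h4] at *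
        linarith
      · have h4 : q = p.swap := Prod.ext h3.2.symm h3.1.symm
        rw [if_pos h4] at *
        linarith
      · rw [if_pos h3.1, if_pos h3.2] at *
        linarith
    · rw [if_neg hlt]
      linarith
  refine (Finset.sum_le_sum fun p hp => Finset.sum_le_sum fun q hq => h1 p hp q hq).trans ?_
  simp only [Finset.sum_add_distrib]
  have s0 : ∑ p ∈ s ×ˢ s, (G p.1 * G p.2) ^ 2 = (∑ a ∈ s, G a ^ 2) ^ 2 := by
    rw [sq (∑ a ∈ s, G a ^ 2), Finset.sum_mul_sum, Finset.sum_product]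
    refine Finset.sum_congr rfl fun a _ => Finset.sum_congr rfl fun b _ => ?_
    ring
  have s1 : ∑ p ∈ s ×ˢ s, ∑ q ∈ s ×ˢ s,
      (if q = p then (G p.1 * G p.2) * (G q.1 * G q.2) else 0) = (∑ a ∈ s, G a ^ 2) ^ 2 := by
    rw [← s0]
    refine Finset.sum_congr rfl fun p hp => ?_
    rw [Finset.sum_ite_eq', if_pos hp]
    ring
  have s2 : ∑ p ∈ s ×ˢ s, ∑ q ∈ s ×ˢ s,
      (if q = p.swap then (G p.1 * G p.2) * (G q.1 * G q.2) else 0) =
        (∑ a ∈ s, G a ^ 2) ^ 2 := by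
    rw [← s0]
    refine Finset.sum_congr rfl fun p hp => ?_
    have hp' : p.swap ∈ s ×ˢ s := by
      rw [Finset.mem_product] at hp ⊢
      exact ⟨hp.2, hp.1⟩
    rw [Finset.sum_ite_eq', if_pos hp']
    simp only [Prod.fst_swap, Prod.snd_swap]
    ring
  have s3 : ∑ p ∈ s ×ˢ s, (if p.2 = τ p.1 then G p.1 * G p.2 else 0) ≤ ∑ a ∈ s, G a ^ 2 := by
    rw [Finset.sum_product]
    have t1 : ∀ a ∈ s, ∑ b ∈ s, (if b = τ a then G a * G b else 0) = G a * G (τ a) := by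
      intro a ha
      rw [Finset.sum_ite_eq', if_pos (hQ.1 a ha).1]
    rw [Finset.sum_congr rfl t1]
    have t2 : ∑ a ∈ s, G (τ a) ^ 2 = ∑ a ∈ s, G a ^ 2 := by
      refine Finset.sum_nbij' τ τ (fun a ha => (hQ.1 a ha).1) (fun a ha => (hQ.1 a ha).1)
        (fun a ha => (hQ.1 a ha).2.2) (fun a ha => (hQ.1 a ha).2.2) (fun a _ => rfl)
    have t3 : ∑ a ∈ s, G a * G (τ a) ≤ ∑ a ∈ s, (G a ^ 2 + G (τ a) ^ 2) / 2 :=
      Finset.sum_le_sum fun a _ => by nlinarith [sq_nonneg (G a - G (τ a))]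
    rw [← Finset.sum_div, Finset.sum_add_distrib, t2] at t3
    linarith
  have s4 : ∑ p ∈ s ×ˢ s, ∑ q ∈ s ×ˢ s, (if p.2 = τ p.1 then G p.1 * G p.2 else 0) *
      (if q.2 = τ q.1 then G q.1 * G q.2 else 0) ≤ (∑ a ∈ s, G a ^ 2) ^ 2 := by
    rw [← Finset.sum_mul_sum, ← sq]
    refine pow_le_pow_left₀ ?_ s3 2
    refine Finset.sum_nonneg fun p _ => ?_
    split_ifs
    · exact mul_nonneg (hG _) (hG _)
    · exact le_rfl
  linarith

theorem pf_L4 (h : T_FWI) : T_L4 := by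
  intro ι s ν g τ n hn hQ
  have h1 := l2_gen h (s ×ˢ s) (fun p : ι × ι => ν p.1 + ν p.2) (fun p => g p.1 * g p.2) n hn
  have h2 : ∀ x : Circ, ES (s ×ˢ s) (fun p : ι × ι => ν p.1 + ν p.2)
      (fun p => g p.1 * g p.2) x = ES s ν g x * ES s ν g x := by
    intro x
    unfold ES
    rw [Finset.sum_mul_sum, Finset.sum_product]
    refine Finset.sum_congr rfl fun a _ => Finset.sum_congr rfl fun b _ => ?_
    simp only
    rw [fourier_add]
    ring
  simp only [h2, norm_mul] at h1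
  have h3 : ∀ x : Circ, (‖ES s ν g x‖ * ‖ES s ν g x‖) ^ 2 = ‖ES s ν g x‖ ^ 4 := fun x => by ring
  simp only [h3] at h1
  exact h1.trans (quad_sum s ν (fun a => ‖g a‖) τ n (fun a => norm_nonneg _) hQ)

end Pool.Agent.H11.ILV
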